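import Pool.Agent.Run7.h501.RadSym.Sol
import Pool.Agent.Run7.h501.RadSym.HypBase

open MeasureTheory Filter Topology Set InnerProductSpace Run7.h501.RadSym
open scoped Laplacian ContDiff

namespace Pool.Agent.Results.MP_ad2fa1_an.NonRadialAllN

lemma base : Base Real.exp Real.exp 1 1 where
  hκ := one_pos
  hC := one_pos
  deriv := Real.hasDerivAt_exp
  cont' := Real.continuous_exp
  pos := Real.exp_pos
  pos' := Real.exp_pos
  le := fun u => by simp
  ub := fun u => by simp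
  lim := fun ε hε => ⟨0, fun u _ => by
    have := Real.exp_pos u
    nlinarith⟩

/-- The profile as a function of `ρ = |x^{K+1} - 1|²`. -/
noncomputable def hA (ρ : ℝ) : ℝ := Real.log (2 / 25) - 2 * Real.log (1 + ρ)

/-- The smooth part of the solution. -/
noncomputable def wA (K : ℕ) (x : ℂ) : ℝ := hA (Complex.normSq (x ^ (K + 1) - 1))

lemma hA_exp {ρ : ℝ} (hρ : 0 ≤ ρ) : Real.exp (hA ρ) = 2 / 25 / (1 + ρ) ^ 2 := by
  unfold hA
  have h1 : Real.log (2 / 25) - 2 * Real.log (1 + ρ)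
      = Real.log (2 / 25) - Real.log ((1 + ρ) ^ 2) := by
    rw [Real.log_pow]; push_cast; ring
  rw [h1, Real.exp_sub, Real.exp_log (by norm_num), Real.exp_log (by positivity)]

lemma wA_contDiff (K : ℕ) {n : WithTop ℕ∞} : ContDiff ℝ n (wA K) := by
  unfold wA hA
  have h1 : ContDiff ℝ n (fun x : ℂ => Complex.normSq (x ^ (K + 1) - 1)) :=
    contDiff_normSq.comp ((contDiff_id.pow (K + 1)).sub contDiff_const)
  refine contDiff_const.sub (contDiff_const.mul (ContDiff.log (contDiff_const.add h1) ?_))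
  intro x
  have := Complex.normSq_nonneg (x ^ (K + 1) - 1)
  positivity

lemma wA_laplacian (K : ℕ) (x : ℂ) :
    Δ (wA K) x = -(100 * ((K : ℝ) + 1) ^ 2 * ‖x‖ ^ (2 * K) * Real.exp (wA K x)) := by
  have h := laplacian_comp_normSq (F := fun z => z ^ (K + 1) - 1)
    (F' := fun z => ((K : ℂ) + 1) * z ^ K)
    (F'' := fun z => ((K : ℂ) + 1) * ((K : ℂ) * z ^ (K - 1))) ?_ ?_ (h := hA)
    (h' := fun ρ => -(2 * (1 / (1 + ρ))))
    (h'' := fun ρ => -(2 * (-1 / (1 + ρ) ^ 2))) ?_ ?_ (wA_contDiff K) x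
  · have e : wA K = fun z => hA (Complex.normSq (z ^ (K + 1) - 1)) := rfl
    have hρ := Complex.normSq_nonneg (x ^ (K + 1) - 1)
    rw [e, h]
    simp only
    rw [hA_exp hρ]
    have h1 : Complex.normSq (((K : ℂ) + 1) * x ^ K) = ((K : ℝ) + 1) ^ 2 * ‖x‖ ^ (2 * K) := by
      rw [← Complex.sq_norm, norm_mul, norm_pow, mul_pow, ← pow_mul, mul_comm K 2]
      congr 2
      have : ((K : ℂ) + 1) = (((K : ℝ) + 1 : ℝ) : ℂ) := by push_cast; rfl
      rw [this, Complex.norm_real, Real.norm_of_nonneg (by positivity)]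
    rw [h1]
    set ρ := Complex.normSq (x ^ (K + 1) - 1)
    have h2 : 1 + ρ ≠ 0 := by positivity
    field_simp
    ring
  · intro z
    have := ((hasDerivAt_pow (K + 1) z)).sub_const 1
    refine this.congr_deriv ?_
    push_cast
    simp
  · intro z
    exact (hasDerivAt_pow K z).const_mul ((K : ℂ) + 1)
  · intro ρ hρ
    have h2 : HasDerivAt (fun ρ : ℝ => 1 + ρ) 1 ρ := (hasDerivAt_id ρ).const_add 1
    exact ((h2.log (by positivity)).const_mul 2).const_sub (Real.log (2 / 25))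
  · intro ρ hρ
    have h2 : HasDerivAt (fun ρ : ℝ => 1 + ρ) 1 ρ := (hasDerivAt_id ρ).const_add 1
    have h4 : HasDerivAt (fun ρ : ℝ => (1 + ρ)⁻¹) (-1 / (1 + ρ) ^ 2) ρ := h2.inv (by positivity)
    have h5 := (h4.const_mul 2).neg
    have e : (fun ρ : ℝ => -(2 * (1 / (1 + ρ)))) = -fun ρ : ℝ => 2 * (1 + ρ)⁻¹ := by
      funext ρ; simp [one_div]
    rw [e]
    exact h5

/-- `r^{2N} ≤ (9/4) (1 + |x^{K+1} - 1|²)²` for `r = |x|`, `0 ≤ N ≤ K`. -/
lemma rpow_bound {N : ℝ} (hN : 0 ≤ N) {K : ℕ} (hK : N ≤ K) {x : ℂ} (hx : x ≠ 0) :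
    ‖x‖ ^ (2 * N) ≤ 9 / 4 * (1 + Complex.normSq (x ^ (K + 1) - 1)) ^ 2 := by
  have hr : 0 < ‖x‖ := norm_pos_iff.2 hx
  set ρ := Complex.normSq (x ^ (K + 1) - 1) with hρdef
  have hρ : 0 ≤ ρ := Complex.normSq_nonneg _
  rcases le_total ‖x‖ 1 with h1 | h1
  · have h2 : ‖x‖ ^ (2 * N) ≤ 1 := Real.rpow_le_one hr.le h1 (by linarith)
    nlinarith
  · have h2 : ‖x‖ ^ (2 * N) ≤ ‖x‖ ^ (2 * ((K : ℝ) + 1)) :=
      Real.rpow_le_rpow_of_exponent_le h1 (by linarith)
    have h3 : ‖x‖ ^ (2 * ((K : ℝ) + 1)) = (‖x‖ ^ (K + 1)) ^ 2 := by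
      rw [← pow_mul, ← Real.rpow_natCast]
      congr 1
      push_cast
      ring
    rw [h3] at h2
    set a := ‖x ^ (K + 1) - 1‖ with ha
    have ha0 : 0 ≤ a := norm_nonneg _
    have h4 : ‖x‖ ^ (K + 1) ≤ 1 + a := by
      have h5 : ‖x ^ (K + 1)‖ ≤ ‖x ^ (K + 1) - 1‖ + ‖(1 : ℂ)‖ := by
        calc ‖x ^ (K + 1)‖ = ‖(x ^ (K + 1) - 1) + 1‖ := by ring_nf
          _ ≤ _ := norm_add_le _ _
      rw [norm_pow, norm_one] at h5
      linarith
    have h5 : ρ = a ^ 2 := by rw [hρdef, ha, Complex.sq_norm]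
    rw [h5]
    have h6 : 1 + a ≤ 3 / 2 * (1 + a ^ 2) := by nlinarith [sq_nonneg (a - 1)]
    have h7 : ‖x‖ ^ (K + 1) ≤ 3 / 2 * (1 + a ^ 2) := h4.trans h6
    have h8 : 0 ≤ ‖x‖ ^ (K + 1) := by positivity
    calc ‖x‖ ^ (2 * N) ≤ (‖x‖ ^ (K + 1)) ^ 2 := h2
      _ ≤ (3 / 2 * (1 + a ^ 2)) ^ 2 := pow_le_pow_left₀ h8 h7 2
      _ = _ := by ring

/-- For every real `N ≥ 0` there are a constant `c > 0` and a nonlinearity `q` such that, with
`p(r) = c r^{2(⌈N⌉ - N)}` (a constant when `N` is an integer), the hypotheses (H1)-(H8) hold and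
the equation has a negative solution that is not radially symmetric about the origin. -/
theorem result : ∀ N : ℝ, 0 ≤ N → ∃ (c : ℝ) (q : ℝ → ℝ) (u : ℂ → ℝ), 0 < c ∧
    Hyp (fun r => c * r ^ (2 * ((⌈N⌉₊ : ℝ) - N))) q ∧
    IsSolution N (fun r => c * r ^ (2 * ((⌈N⌉₊ : ℝ) - N))) q u ∧
    (∀ x : ℂ, x ≠ 0 → u x < 0) ∧
    ∃ x y : ℂ, x ≠ 0 ∧ y ≠ 0 ∧ ‖x‖ = ‖y‖ ∧ u x ≠ u y := by
  intro N hN
  set K : ℕ := ⌈N⌉₊ with hKdef
  have hK : N ≤ K := Nat.le_ceil N
  have hc : (0 : ℝ) < 100 * ((K : ℝ) + 1) ^ 2 := by positivity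
  have hq : gOf (fun s => gt Real.exp (Real.log s)) = gt Real.exp := by
    funext u; simp [gOf]
  have hp : fOf (fun r : ℝ => 100 * ((K : ℝ) + 1) ^ 2 * r ^ (2 * ((K : ℝ) - N)))
      = fun t => 100 * ((K : ℝ) + 1) ^ 2 * Real.exp ((2 + 2 * ((K : ℝ) - N)) * t) := by
    funext t
    unfold fOf
    beta_reduce
    rw [← Real.exp_mul]
    have : Real.exp ((2 + 2 * ((K : ℝ) - N)) * t)
        = Real.exp (2 * t) * Real.exp (t * (2 * ((K : ℝ) - N))) := by
      rw [← Real.exp_add]; congr 1; ring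
    rw [this]; ring
  -- the exponential of the solution
  have hexp : ∀ x : ℂ, x ≠ 0 → Real.exp (2 * N * Real.log ‖x‖ + wA K x)
      = ‖x‖ ^ (2 * N) * (2 / 25 / (1 + Complex.normSq (x ^ (K + 1) - 1)) ^ 2) := by
    intro x hx
    rw [Real.exp_add, Real.rpow_def_of_pos (norm_pos_iff.2 hx), mul_comm (2 * N)]
    unfold wA
    rw [hA_exp (Complex.normSq_nonneg _)]
  have hlt : ∀ x : ℂ, x ≠ 0 → 2 * N * Real.log ‖x‖ + wA K x < -1 := by
    intro x hx
    have h1 : Real.exp (2 * N * Real.log ‖x‖ + wA K x) ≤ 9 / 50 := by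
      rw [hexp x hx]
      have h2 := rpow_bound hN hK hx
      have hρ := Complex.normSq_nonneg (x ^ (K + 1) - 1)
      rw [mul_div_assoc', div_le_iff₀ (by positivity)]
      linarith
    have h2 : (9 / 50 : ℝ) < Real.exp (-1) := by
      have := Real.exp_neg_one_gt_d9; linarith
    exact Real.exp_lt_exp.1 (lt_of_le_of_lt h1 h2)
  refine ⟨100 * ((K : ℝ) + 1) ^ 2, fun s => gt Real.exp (Real.log s),
    fun x => 2 * N * Real.log ‖x‖ + wA K x, hc,
    hyp_of_base base hc (by linarith) hp hq, ?_, ?_, ?_⟩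
  · refine isSolution_of (wA_contDiff K) fun x hx => ?_
    have hr : 0 < ‖x‖ := norm_pos_iff.2 hx
    simp only [Real.log_exp]
    rw [wA_laplacian, neg_neg, Base.gt_of_le (hlt x hx).le, hexp x hx]
    have h1 : Real.exp (wA K x) = 2 / 25 / (1 + Complex.normSq (x ^ (K + 1) - 1)) ^ 2 := by
      unfold wA
      rw [hA_exp (Complex.normSq_nonneg _)]
    rw [h1]
    have h2 : ‖x‖ ^ (2 * K) = ‖x‖ ^ (2 * ((K : ℝ) - N)) * ‖x‖ ^ (2 * N) := by
      rw [← Real.rpow_add hr, ← Real.rpow_natCast]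
      congr 1
      push_cast
      ring
    rw [h2]
    ring
  · intro x hx
    have := hlt x hx
    linarith
  · -- the points `1` and `e^{iπ/(K+1)}`
    refine ⟨1, Complex.exp (((Real.pi / (K + 1) : ℝ) : ℂ) * Complex.I), one_ne_zero,
      Complex.exp_ne_zero _, ?_, ?_⟩
    · rw [Complex.norm_exp_ofReal_mul_I, norm_one]
    · simp only [norm_one, Real.log_one, mul_zero, zero_add, Complex.norm_exp_ofReal_mul_I]
      have h1 : Complex.exp (((Real.pi / (K + 1) : ℝ) : ℂ) * Complex.I) ^ (K + 1) = -1 := by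
        rw [← Complex.exp_nat_mul, ← Complex.exp_pi_mul_I]
        congr 1
        have : ((K : ℂ) + 1) ≠ 0 := by exact_mod_cast Nat.succ_ne_zero K
        push_cast
        field_simp
      unfold wA
      rw [h1]
      have h2 : Complex.normSq ((1 : ℂ) ^ (K + 1) - 1) = 0 := by simp
      have h3 : Complex.normSq ((-1 : ℂ) - 1) = 4 := by
        norm_num [Complex.normSq_apply]
      rw [h2, h3]
      intro h
      have h4 := congrArg Real.exp h
      rw [hA_exp le_rfl, hA_exp (by norm_num)] at h4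
      norm_num at h4

end Pool.Agent.Results.MP_ad2fa1_an.NonRadialAllN
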