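import Pool.Agent.Run7.h501.RadSym.Sol
import Pool.Agent.Run7.h501.RadSym.HypBase

open MeasureTheory Filter Topology Set InnerProductSpace Run7.h501.RadSym
open scoped Laplacian ContDiff

namespace Pool.Agent.Results.MP_ad2fa1_an.NonRadialStrict

/-- The positive root of `s + s² = e^{u+2}`. -/
noncomputable def sB (u : ℝ) : ℝ := (Real.sqrt (1 + 4 * Real.exp (u + 2)) - 1) / 2

/-- The base nonlinearity. -/
noncomputable def GB (u : ℝ) : ℝ := sB u ^ 3 * (2 + sB u) / (1 + sB u) ^ 2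

/-- Its derivative. -/
noncomputable def GB' (u : ℝ) : ℝ :=
  sB u ^ 3 * (6 + 6 * sB u + 2 * sB u ^ 2) / ((1 + sB u) ^ 2 * (1 + 2 * sB u))

lemma sB_pos (u : ℝ) : 0 < sB u := by
  unfold sB
  have h1 : 1 < Real.sqrt (1 + 4 * Real.exp (u + 2)) := by
    rw [Real.lt_sqrt (by norm_num)]
    have := Real.exp_pos (u + 2)
    linarith
  linarith

lemma sB_eq (u : ℝ) : sB u + sB u ^ 2 = Real.exp (u + 2) := by
  unfold sB
  have h1 : Real.sqrt (1 + 4 * Real.exp (u + 2)) ^ 2 = 1 + 4 * Real.exp (u + 2) :=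
    Real.sq_sqrt (by positivity)
  nlinarith

lemma one_add_two_sB (u : ℝ) : 1 + 2 * sB u = Real.sqrt (1 + 4 * Real.exp (u + 2)) := by
  unfold sB; ring

lemma sB_unique {u s : ℝ} (hs : 0 < s) (h : s + s ^ 2 = Real.exp (u + 2)) : sB u = s := by
  have h1 := sB_pos u
  have h2 := sB_eq u
  have h3 : (sB u - s) * (1 + sB u + s) = 0 := by nlinarith
  rcases mul_eq_zero.1 h3 with h4 | h4
  · linarith
  · linarith

lemma sB_hasDeriv (u : ℝ) : HasDerivAt sB (sB u * (1 + sB u) / (1 + 2 * sB u)) u := by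
  have h0 : (1 + 4 * Real.exp (u + 2)) ≠ 0 := by positivity
  have h1 : HasDerivAt (fun u : ℝ => u + 2) 1 u := (hasDerivAt_id u).add_const 2
  have h2 : HasDerivAt (fun u : ℝ => 1 + 4 * Real.exp (u + 2)) (4 * Real.exp (u + 2)) u :=
    ((h1.exp.const_mul 4).const_add 1).congr_deriv (by ring)
  have h3 := ((h2.sqrt h0).sub_const 1).div_const 2
  refine h3.congr_deriv ?_
  rw [← one_add_two_sB, ← sB_eq]
  have h4 : 1 + 2 * sB u ≠ 0 := by have := sB_pos u; positivity
  field_simp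
  ring

lemma GB_hasDeriv (u : ℝ) : HasDerivAt GB (GB' u) u := by
  have h := sB_hasDeriv u
  have hp := sB_pos u
  have h1 : 1 + sB u ≠ 0 := by positivity
  have h2 : 1 + 2 * sB u ≠ 0 := by positivity
  have a1 := (h.pow 3).mul (h.const_add 2)
  have a2 := (h.const_add 1).pow 2
  have a3 := a1.div a2 (by simpa using pow_ne_zero 2 h1)
  refine a3.congr_deriv ?_
  unfold GB'
  simp only [Pi.pow_apply, Pi.mul_apply]
  field_simp
  ring

lemma base : Base GB GB' 3 (2 * Real.exp 6) where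
  hκ := by norm_num
  hC := by positivity
  deriv := GB_hasDeriv
  cont' := by
    have h : Continuous sB := continuous_iff_continuousAt.2 fun u => (sB_hasDeriv u).continuousAt
    unfold GB'
    refine Continuous.div (by fun_prop) (by fun_prop) fun u => ?_
    have := sB_pos u
    positivity
  pos := fun u => by have := sB_pos u; unfold GB; positivity
  pos' := fun u => by have := sB_pos u; unfold GB'; positivity
  le := fun u => by
    have hp := sB_pos u
    unfold GB GB'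
    rw [div_le_iff₀ (by positivity)]
    have e : 3 * (sB u ^ 3 * (2 + sB u) / (1 + sB u) ^ 2) * ((1 + sB u) ^ 2 * (1 + 2 * sB u))
        = 3 * sB u ^ 3 * (2 + sB u) * (1 + 2 * sB u) := by
      field_simp
    rw [e]
    have h3 : 0 < sB u ^ 3 := by positivity
    have : 0 ≤ sB u ^ 3 * (9 * sB u + 4 * sB u ^ 2) := by positivity
    nlinarith
  ub := fun u => by
    have hp := sB_pos u
    have h1 : sB u ≤ Real.exp (u + 2) := by
      have := sB_eq u; nlinarith
    have h2 : sB u ^ 3 ≤ Real.exp (u + 2) ^ 3 := pow_le_pow_left₀ hp.le h1 3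
    have h3 : Real.exp (u + 2) ^ 3 = Real.exp 6 * Real.exp (3 * u) := by
      rw [← Real.exp_nat_mul, ← Real.exp_add]; congr 1; push_cast; ring
    have h4 : GB u ≤ 2 * sB u ^ 3 := by
      unfold GB
      rw [div_le_iff₀ (by positivity)]
      have h5 : 0 < sB u ^ 3 := by positivity
      have h6 : 2 + sB u ≤ 2 * (1 + sB u) ^ 2 := by nlinarith
      nlinarith
    rw [h3] at h2
    linarith
  lim := fun ε hε => by
    refine ⟨Real.log (min 1 ε) - 2, fun u hu => ?_⟩
    have hp := sB_pos u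
    have hm : 0 < min 1 ε := lt_min one_pos hε
    have h1 : sB u ≤ min 1 ε := by
      have h2 := sB_eq u
      have h3 : Real.exp (u + 2) ≤ min 1 ε := by
        rw [← Real.exp_log hm]
        exact Real.exp_le_exp.2 (by linarith)
      nlinarith
    have h2 : sB u ≤ 1 := h1.trans (min_le_left _ _)
    have h3 : sB u ≤ ε := h1.trans (min_le_right _ _)
    unfold GB GB'
    have e : (1 / 3 + ε) * (sB u ^ 3 * (6 + 6 * sB u + 2 * sB u ^ 2)
          / ((1 + sB u) ^ 2 * (1 + 2 * sB u)))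
        = ((1 / 3 + ε) * (sB u ^ 3 * (6 + 6 * sB u + 2 * sB u ^ 2)) / (1 + 2 * sB u))
          / (1 + sB u) ^ 2 := by
      field_simp
    rw [e]
    refine div_le_div_of_nonneg_right ?_ (by positivity)
    rw [le_div_iff₀ (by positivity)]
    have h4 : (2 + sB u) * (1 + 2 * sB u) ≤ (1 / 3 + ε) * (6 + 6 * sB u + 2 * sB u ^ 2) := by
      have h5 : 0 ≤ ε * (6 * sB u + 2 * sB u ^ 2) := by positivity
      nlinarith
    have h6 : 0 < sB u ^ 3 := by positivity
    calc sB u ^ 3 * (2 + sB u) * (1 + 2 * sB u)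
        = sB u ^ 3 * ((2 + sB u) * (1 + 2 * sB u)) := by ring
      _ ≤ sB u ^ 3 * ((1 / 3 + ε) * (6 + 6 * sB u + 2 * sB u ^ 2)) :=
          mul_le_mul_of_nonneg_left h4 h6.le
      _ = _ := by ring

lemma strict (u : ℝ) : GB' u < 3 * GB u := by
  have hp := sB_pos u
  unfold GB GB'
  rw [div_lt_iff₀ (by positivity)]
  have e : 3 * (sB u ^ 3 * (2 + sB u) / (1 + sB u) ^ 2) * ((1 + sB u) ^ 2 * (1 + 2 * sB u))
      = 3 * sB u ^ 3 * (2 + sB u) * (1 + 2 * sB u) := by
    field_simp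
  rw [e]
  have h3 : 0 < sB u ^ 3 := by positivity
  have : 0 < sB u ^ 3 * (9 * sB u + 4 * sB u ^ 2) := by positivity
  nlinarith

/-- The profile as a function of `ρ = |x² - 1|²`. -/
noncomputable def hB (ρ : ℝ) : ℝ := Real.log (2 + ρ) - 2 * Real.log (1 + ρ) - 2

/-- The solution. -/
noncomputable def wB (x : ℂ) : ℝ := hB (Complex.normSq (x ^ 2 - 1))

lemma hB_exp {ρ : ℝ} (hρ : 0 ≤ ρ) : Real.exp (hB ρ + 2) = (2 + ρ) / (1 + ρ) ^ 2 := by
  unfold hB
  have h1 : Real.log (2 + ρ) - 2 * Real.log (1 + ρ) - 2 + 2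
      = Real.log (2 + ρ) - Real.log ((1 + ρ) ^ 2) := by
    rw [Real.log_pow]; push_cast; ring
  rw [h1, Real.exp_sub, Real.exp_log (by positivity), Real.exp_log (by positivity)]

lemma hB_lt {ρ : ℝ} (hρ : 0 ≤ ρ) : hB ρ < -1 := by
  have h1 : Real.exp (hB ρ + 2) ≤ 2 := by
    rw [hB_exp hρ, div_le_iff₀ (by positivity)]
    nlinarith
  have h2 : (2 : ℝ) < Real.exp 1 := by
    have := Real.exp_one_gt_d9; linarith
  have h3 : hB ρ + 2 < 1 := Real.exp_lt_exp.1 (lt_of_le_of_lt h1 h2)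
  linarith

lemma sB_hB {ρ : ℝ} (hρ : 0 ≤ ρ) : sB (hB ρ) = 1 / (1 + ρ) := by
  apply sB_unique (by positivity)
  rw [hB_exp hρ]
  field_simp
  ring

lemma wB_contDiff {n : WithTop ℕ∞} : ContDiff ℝ n wB := by
  unfold wB hB
  have h1 : ContDiff ℝ n (fun x : ℂ => Complex.normSq (x ^ 2 - 1)) :=
    contDiff_normSq.comp ((contDiff_id.pow 2).sub contDiff_const)
  refine ((ContDiff.log (contDiff_const.add h1) ?_).sub
    (contDiff_const.mul (ContDiff.log (contDiff_const.add h1) ?_))).sub contDiff_const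
  · intro x
    have := Complex.normSq_nonneg (x ^ 2 - 1)
    positivity
  · intro x
    have := Complex.normSq_nonneg (x ^ 2 - 1)
    positivity

lemma wB_laplacian (x : ℂ) : Δ wB x = -(32 * ‖x‖ ^ 2 * GB (wB x)) := by
  have h := laplacian_comp_normSq (F := fun z => z ^ 2 - 1) (F' := fun z => 2 * z)
    (F'' := fun _ => 2) ?_ ?_ (h := hB)
    (h' := fun ρ => 1 / (2 + ρ) - 2 * (1 / (1 + ρ)))
    (h'' := fun ρ => -1 / (2 + ρ) ^ 2 - 2 * (-1 / (1 + ρ) ^ 2)) ?_ ?_ wB_contDiff x
  · have e : wB = fun z => hB (Complex.normSq (z ^ 2 - 1)) := rfl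
    have hρ := Complex.normSq_nonneg (x ^ 2 - 1)
    rw [e, h]
    simp only
    unfold GB
    rw [sB_hB hρ]
    have h1 : Complex.normSq (2 * x) = 4 * ‖x‖ ^ 2 := by
      rw [Complex.normSq_mul, Complex.sq_norm]
      norm_num [Complex.normSq_apply]
    rw [h1]
    set ρ := Complex.normSq (x ^ 2 - 1)
    have h2 : 1 + ρ ≠ 0 := by positivity
    have h3 : 2 + ρ ≠ 0 := by positivity
    have h4 : 1 + 1 / (1 + ρ) = (2 + ρ) / (1 + ρ) := by field_simp; ring
    rw [h4]
    field_simp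
    ring
  · intro z
    have := ((hasDerivAt_id z).pow 2).sub_const 1
    refine this.congr_deriv ?_
    simp
  · intro z
    simpa using (hasDerivAt_id z).const_mul (2 : ℂ)
  · intro ρ hρ
    have h1 : HasDerivAt (fun ρ : ℝ => 2 + ρ) 1 ρ := (hasDerivAt_id ρ).const_add 2
    have h2 : HasDerivAt (fun ρ : ℝ => 1 + ρ) 1 ρ := (hasDerivAt_id ρ).const_add 1
    exact ((h1.log (by positivity)).sub ((h2.log (by positivity)).const_mul 2)).sub_const 2
  · intro ρ hρ
    have h1 : HasDerivAt (fun ρ : ℝ => 2 + ρ) 1 ρ := (hasDerivAt_id ρ).const_add 2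
    have h2 : HasDerivAt (fun ρ : ℝ => 1 + ρ) 1 ρ := (hasDerivAt_id ρ).const_add 1
    have h3 : HasDerivAt (fun ρ : ℝ => (2 + ρ)⁻¹) (-1 / (2 + ρ) ^ 2) ρ := h1.inv (by positivity)
    have h4 : HasDerivAt (fun ρ : ℝ => (1 + ρ)⁻¹) (-1 / (1 + ρ) ^ 2) ρ := h2.inv (by positivity)
    have h5 := h3.sub (h4.const_mul 2)
    have e : (fun ρ : ℝ => 1 / (2 + ρ) - 2 * (1 / (1 + ρ)))
        = (fun ρ : ℝ => (2 + ρ)⁻¹) - fun ρ : ℝ => 2 * (1 + ρ)⁻¹ := by
      funext ρ; simp [one_div]
    rw [e]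
    exact h5

/-- There is a nonlinearity `q` such that, with `N = 0` and `p(r) = 32 r²`, the hypotheses
(H1)-(H8) hold, even with the strict inequality `G₁(v) > g₁` for all `v < 0` in (H7), and such
that the equation has a negative solution which is radially symmetric about no point. -/
theorem result : ∃ (q : ℝ → ℝ) (u : ℂ → ℝ), Hyp (fun r => 32 * r ^ 2) q ∧
    (∃ g₁ : ℝ, Tendsto (G1 q) atBot (𝓝 g₁) ∧ ∀ v < 0, g₁ < G1 q v) ∧
    IsSolution 0 (fun r => 32 * r ^ 2) q u ∧ (∀ x, u x < 0) ∧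
    ∀ x₀ : ℂ, ∃ x y : ℂ, ‖x - x₀‖ = ‖y - x₀‖ ∧ u x ≠ u y := by
  have hq : gOf (fun s => gt GB (Real.log s)) = gt GB := by
    funext u; simp [gOf]
  have hp : fOf (fun r : ℝ => 32 * r ^ 2) = fun t => 32 * Real.exp (4 * t) := by
    funext t
    unfold fOf
    have : Real.exp (4 * t) = Real.exp (2 * t) * Real.exp t ^ 2 := by
      rw [← Real.exp_nat_mul, ← Real.exp_add]; congr 1; push_cast; ring
    rw [this]; ring
  refine ⟨fun s => gt GB (Real.log s), wB, hyp_of_base base (by norm_num) (by norm_num) hp hq,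
    strict_of_base base strict hq, ?_, ?_, ?_⟩
  · have h := isSolution_of (N := 0) (p := fun r => 32 * r ^ 2)
      (q := fun s => gt GB (Real.log s)) (w := wB) wB_contDiff ?_
    · simpa using h
    · intro x _
      simp only [mul_zero, zero_mul, zero_add, Real.log_exp]
      have h1 : wB x ≤ -1 := (hB_lt (Complex.normSq_nonneg (x ^ 2 - 1))).le
      rw [wB_laplacian, neg_neg, Base.gt_of_le h1]
  · intro x
    have := hB_lt (Complex.normSq_nonneg (x ^ 2 - 1))
    unfold wB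
    linarith
  · intro x₀
    by_contra hcon
    simp only [not_exists, not_and, not_not] at hcon
    -- a point `x₁ ∈ {1, -1}` different from `x₀`
    obtain ⟨x₁, hx₁, hx₁'⟩ : ∃ x₁ : ℂ, x₁ ^ 2 = 1 ∧ x₁ ≠ x₀ := by
      by_cases h : (1 : ℂ) = x₀
      · refine ⟨-1, by norm_num, ?_⟩
        rw [← h]; norm_num
      · exact ⟨1, by norm_num, h⟩
    have key : ∀ y : ℂ, ‖y - x₀‖ = ‖x₁ - x₀‖ → y ^ 2 = 1 := by
      intro y hy
      have h1 : wB y = wB x₁ := hcon y x₁ hy
      have h2 : wB x₁ = hB 0 := by unfold wB; rw [hx₁]; simp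
      have hρ := Complex.normSq_nonneg (y ^ 2 - 1)
      have h3 : Real.exp (hB (Complex.normSq (y ^ 2 - 1)) + 2) = Real.exp (hB 0 + 2) := by
        rw [← h2, ← h1]; rfl
      rw [hB_exp hρ, hB_exp le_rfl] at h3
      have h4 : Complex.normSq (y ^ 2 - 1) = 0 := by
        set ρ := Complex.normSq (y ^ 2 - 1)
        rw [div_eq_div_iff (by positivity) (by norm_num)] at h3
        have h5 : ρ * (2 * ρ + 3) = 0 := by nlinarith
        rcases mul_eq_zero.1 h5 with h6 | h6
        · exact h6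
        · linarith
      have h5 := Complex.normSq_eq_zero.1 h4
      linear_combination h5
    set d := x₁ - x₀ with hd
    have hd0 : d ≠ 0 := sub_ne_zero.2 hx₁'
    have k1 := key (x₀ + d) (by simp)
    have k2 := key (x₀ - d) (by simp [norm_neg])
    have k3 := key (x₀ + Complex.I * d) (by simp)
    have k4 : x₀ * d = 0 := by linear_combination (k1 - k2) / 4
    have k5 : x₀ = 0 := (mul_eq_zero.1 k4).resolve_right hd0
    rw [k5] at k1 k3
    have k6 : (1 : ℂ) = -1 := by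
      have e1 : d ^ 2 = 1 := by linear_combination k1
      have e2 : (Complex.I * d) ^ 2 = 1 := by linear_combination k3
      rw [mul_pow, Complex.I_sq, e1] at e2
      linear_combination -e2
    norm_num at k6

end Pool.Agent.Results.MP_ad2fa1_an.NonRadialStrict
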